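import Mathlib

set_option autoImplicit false

/-!
# A locally connected continuum without property (F)
-/

open Set Filter Topology

namespace Pool.Agent.Results.MP_98cb65_gt.InfiniteTorus

/-- `T` has iterate displacement below `B`. -/
def IterateDisplacementBelow {X : Type} [MetricSpace X] (T : X → X) (B : ℝ) : Prop :=
  ∀ x : X, ∀ ν : ℕ, 1 ≤ ν → dist (T^[ν] x) x < B

/-- Property (F): for some `B > 0`, every continuous self-map with iterate displacement below `B`
has a fixed point. -/
def PropertyF (X : Type) [MetricSpace X] : Prop :=
  ∃ B : ℝ, 0 < B ∧ ∀ T : X → X, Continuous T → IterateDisplacementBelow T B → ∃ x, T x = x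

/-- the infinite torus -/
abbrev Torus : Type := ℕ → UnitAddCircle

/-- the half turn in the `n`-th coordinate -/
noncomputable def half (n : ℕ) : Torus := Pi.single n (((1 / 2 : ℝ)) : UnitAddCircle)

theorem half_circle_add : (((1 / 2 : ℝ)) : UnitAddCircle) + (((1 / 2 : ℝ)) : UnitAddCircle) = 0 := by
  rw [← AddCircle.coe_add]
  norm_num

theorem half_circle_ne : (((1 / 2 : ℝ)) : UnitAddCircle) ≠ 0 := by
  intro h
  rw [AddCircle.coe_eq_zero_iff] at h
  obtain ⟨n, hn⟩ := h
  rw [zsmul_eq_mul, mul_one] at hn
  have h2 : ((2 * n : ℤ) : ℝ) = ((1 : ℤ) : ℝ) := by push_cast; linarith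
  have h3 : 2 * n = 1 := by exact_mod_cast h2
  omega

theorem half_add (n : ℕ) : half n + half n = 0 := by
  unfold half
  rw [← Pi.single_add, half_circle_add, Pi.single_zero]

theorem half_ne (n : ℕ) : half n ≠ 0 := by
  intro h
  have := congrFun h n
  unfold half at this
  rw [Pi.single_eq_same] at this
  exact half_circle_ne this

theorem half_tendsto : Tendsto half atTop (𝓝 0) := by
  rw [tendsto_pi_nhds]
  intro i
  apply tendsto_const_nhds.congr'
  filter_upwards [eventually_gt_atTop i] with n hn
  unfold half
  rw [Pi.single_eq_of_ne (by omega)]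
  rfl

theorem torus_locallyConnected : LocallyConnectedSpace Torus := by
  have h : IsOpenQuotientMap (Pi.map (fun (_ : ℕ) (x : ℝ) => (x : UnitAddCircle))) :=
    IsOpenQuotientMap.piMap fun _ => QuotientAddGroup.isOpenQuotientMap_mk
  exact h.isQuotientMap.isCoinducing.locallyConnectedSpace

/-- **Negative answer to Q2.** There is a locally connected continuum without property (F): for
every `B > 0` it has a fixed point free continuous involution all of whose iterates move every point
by less than `B`. -/
theorem result : ∃ (X : Type) (_ : MetricSpace X),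
    CompactSpace X ∧ ConnectedSpace X ∧ LocallyConnectedSpace X ∧ ¬ PropertyF X ∧
      ∀ B : ℝ, 0 < B → ∃ T : X → X, Continuous T ∧ (∀ x, T (T x) = x) ∧
        IterateDisplacementBelow T B ∧ ∀ x, T x ≠ x := by
  let _ : MetricSpace Torus := TopologicalSpace.metrizableSpaceMetric Torus
  have key : ∀ B : ℝ, 0 < B → ∃ T : Torus → Torus, Continuous T ∧ (∀ x, T (T x) = x) ∧
        IterateDisplacementBelow T B ∧ ∀ x, T x ≠ x := by
    intro B hB
    have h1 : ∀ᶠ y in 𝓝 (0 : Torus), ∀ x ∈ (univ : Set Torus), dist (x + y) x < B := by
      apply isCompact_univ.eventually_forall_of_forall_eventually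
      intro x _
      have hc : Continuous fun z : Torus × Torus => dist (z.2 + z.1) z.2 := by fun_prop
      have h0 : dist ((0 : Torus), x).2 ((0 : Torus), x).2 = 0 := dist_self _
      apply hc.continuousAt.eventually_lt continuousAt_const
      simpa using hB
    obtain ⟨n, hn⟩ := (half_tendsto.eventually h1).exists
    have hinv : ∀ x : Torus, x + half n + half n = x := by
      intro x
      rw [add_assoc, half_add, add_zero]
    refine ⟨fun x => x + half n, by fun_prop, hinv, ?_, ?_⟩
    · intro x ν _
      have h2 : ∀ ν : ℕ, (fun x => x + half n)^[ν] x = x ∨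
          (fun x => x + half n)^[ν] x = x + half n := by
        intro ν
        induction ν with
        | zero => exact Or.inl rfl
        | succ ν ih =>
          rw [Function.iterate_succ_apply']
          rcases ih with h | h
          · rw [h]; exact Or.inr rfl
          · rw [h]; exact Or.inl (hinv x)
      rcases h2 ν with h | h
      · rw [h, dist_self]; exact hB
      · rw [h]; exact hn x trivial
    · intro x hx
      exact half_ne n (add_eq_left.1 hx)
  refine ⟨Torus, inferInstance, inferInstance, inferInstance, torus_locallyConnected, ?_, key⟩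
  rintro ⟨B, hB, h⟩
  obtain ⟨T, hT, -, hd, hf⟩ := key B hB
  obtain ⟨x, hx⟩ := h T hT hd
  exact hf x hx

end Pool.Agent.Results.MP_98cb65_gt.InfiniteTorus
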